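import Pool.Agent.W488.IW.Stm

/-! Project IW: the torus as an instance of the abstract Galerkin scheme. -/

set_option autoImplicit false

namespace Pool.Agent.W360.IW.Conc

open Pool.Agent.W488.IW MeasureTheory Set Filter Topology
open scoped ComplexConjugate ENNReal

/-! ### multiplication operators -/

section mul

variable {Ω : Type} [MeasurableSpace Ω] {μ : Measure Ω}

theorem mem_mul (m : Ω → ℂ) (hm : AEStronglyMeasurable m μ) (hb : ∀ x, ‖m x‖ ≤ 1)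
    (f : Lp ℂ 2 μ) : MemLp (fun x => m x * f x) 2 μ := by
  refine (Lp.memLp f).of_le (hm.mul (Lp.memLp f).1) (Eventually.of_forall fun x => ?_)
  rw [norm_mul]
  exact mul_le_of_le_one_left (norm_nonneg _) (hb x)

/-- multiplication by a bounded function -/
noncomputable def mulL (m : Ω → ℂ) (hm : AEStronglyMeasurable m μ) (hb : ∀ x, ‖m x‖ ≤ 1) :
    Lp ℂ 2 μ →L[ℂ] Lp ℂ 2 μ :=
  LinearMap.mkContinuous
    { toFun := fun f => (mem_mul m hm hb f).toLp _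
      map_add' := by
        intro f g
        rw [← MemLp.toLp_add, MemLp.toLp_eq_toLp_iff]
        filter_upwards [Lp.coeFn_add f g] with x hx
        simp only [hx, Pi.add_apply, mul_add]
      map_smul' := by
        intro c f
        simp only [RingHom.id_apply]
        rw [← MemLp.toLp_const_smul, MemLp.toLp_eq_toLp_iff]
        filter_upwards [Lp.coeFn_smul c f] with x hx
        simp only [hx, Pi.smul_apply, smul_eq_mul]
        ring } 1 (by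
      intro f
      rw [one_mul]
      apply Lp.norm_le_norm_of_ae_le
      filter_upwards [(mem_mul m hm hb f).coeFn_toLp] with x hx
      simp only [LinearMap.coe_mk, AddHom.coe_mk]
      rw [hx, norm_mul]
      exact mul_le_of_le_one_left (norm_nonneg _) (hb x))

theorem mulL_coe (m : Ω → ℂ) (hm : AEStronglyMeasurable m μ) (hb : ∀ x, ‖m x‖ ≤ 1)
    (f : Lp ℂ 2 μ) : mulL m hm hb f =ᵐ[μ] fun x => m x * f x :=
  (mem_mul m hm hb f).coeFn_toLp

theorem norm_mulL_le (m : Ω → ℂ) (hm : AEStronglyMeasurable m μ) (hb : ∀ x, ‖m x‖ ≤ 1) :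
    ‖mulL (μ := μ) m hm hb‖ ≤ 1 :=
  LinearMap.mkContinuous_norm_le _ zero_le_one _

theorem adjoint_mulL (m : Ω → ℂ) (hm : AEStronglyMeasurable m μ) (hb : ∀ x, ‖m x‖ ≤ 1) 
    (hm' : AEStronglyMeasurable (fun x => conj (m x)) μ) (hb' : ∀ x, ‖conj (m x)‖ ≤ 1) :
    (mulL m hm hb).adjoint = mulL (fun x => conj (m x)) hm' hb' := by
  symm
  rw [ContinuousLinearMap.eq_adjoint_iff]
  intro f g
  rw [L2.inner_def, L2.inner_def]
  apply integral_congr_ae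
  filter_upwards [mulL_coe m hm hb g, mulL_coe (fun x => conj (m x)) hm' hb' f] with x h1 h2
  rw [h1, h2]
  simp only [RCLike.inner_apply, map_mul, Complex.conj_conj]
  ring

end mul

/-! ### the coefficient -/

noncomputable def uu (ε : ℝ) (a : ℂ) : ℂ := a / (XX ε a : ℂ)

theorem XX_pos {ε : ℝ} (hε : 0 < ε) (a : ℂ) : 0 < XX ε a :=
  Real.sqrt_pos.2 (by positivity)

theorem XX_ge {ε : ℝ} (a : ℂ) : ε ≤ XX ε a :=
  Real.le_sqrt_of_sq_le (by nlinarith [sq_nonneg ‖a‖])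

theorem norm_le_XX {ε : ℝ} (a : ℂ) : ‖a‖ ≤ XX ε a :=
  Real.le_sqrt_of_sq_le (by nlinarith [sq_nonneg ε])

theorem XX_sq {ε : ℝ} (a : ℂ) : XX ε a ^ 2 = ‖a‖ ^ 2 + ε ^ 2 :=
  Real.sq_sqrt (by positivity)

theorem XX_lip {ε : ℝ} (hε : 0 < ε) (a b : ℂ) : |XX ε a - XX ε b| ≤ ‖a - b‖ := by
  have ha := XX_pos hε a
  have hb := XX_pos hε b
  have h1 : (XX ε a - XX ε b) * (XX ε a + XX ε b) = (‖a‖ - ‖b‖) * (‖a‖ + ‖b‖) := by
    have := XX_sq (ε := ε) a
    have := XX_sq (ε := ε) b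
    nlinarith
  have h2 : |XX ε a - XX ε b| * (XX ε a + XX ε b) = |‖a‖ - ‖b‖| * (‖a‖ + ‖b‖) := by
    rw [← abs_of_pos (show 0 < XX ε a + XX ε b by positivity), ← abs_mul, h1, abs_mul,
      abs_of_nonneg (show 0 ≤ ‖a‖ + ‖b‖ by positivity)]
  have h3 : |‖a‖ - ‖b‖| ≤ ‖a - b‖ := abs_norm_sub_norm_le a b
  have h4 : |‖a‖ - ‖b‖| * (‖a‖ + ‖b‖) ≤ ‖a - b‖ * (XX ε a + XX ε b) :=
    mul_le_mul h3 (add_le_add (norm_le_XX a) (norm_le_XX b)) (by positivity) (norm_nonneg _)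
  rw [← h2] at h4
  exact le_of_mul_le_mul_right h4 (by positivity)

theorem norm_uu_le {ε : ℝ} (hε : 0 < ε) (a : ℂ) : ‖uu ε a‖ ≤ 1 := by
  unfold uu
  rw [norm_div, Complex.norm_real, Real.norm_eq_abs, abs_of_pos (XX_pos hε a)]
  exact (div_le_one (XX_pos hε a)).2 (norm_le_XX a)

theorem uu_lip {ε : ℝ} (hε : 0 < ε) (a b : ℂ) : ‖uu ε a - uu ε b‖ ≤ 2 / ε * ‖a - b‖ := by
  have ha := XX_pos hε a
  have hb := XX_pos hε b
  have ha' : (XX ε a : ℂ) ≠ 0 := by exact_mod_cast ha.ne'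
  have hb' : (XX ε b : ℂ) ≠ 0 := by exact_mod_cast hb.ne'
  have h1 : uu ε a - uu ε b = (a - b) / XX ε a + uu ε b * ((XX ε b - XX ε a : ℝ) : ℂ) / XX ε a := by
    unfold uu
    push_cast
    field_simp
    ring
  have hinv : 1 / XX ε a ≤ 1 / ε := one_div_le_one_div_of_le hε (XX_ge a)
  have e1 : ‖(a - b) / (XX ε a : ℂ)‖ ≤ 1 / ε * ‖a - b‖ := by
    rw [norm_div, Complex.norm_real, Real.norm_eq_abs, abs_of_pos ha, div_eq_mul_one_div, mul_comm]
    exact mul_le_mul_of_nonneg_right hinv (norm_nonneg _)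
  have e2 : ‖uu ε b * ((XX ε b - XX ε a : ℝ) : ℂ) / (XX ε a : ℂ)‖ ≤ 1 / ε * ‖a - b‖ := by
    rw [norm_div, norm_mul, Complex.norm_real, Complex.norm_real, Real.norm_eq_abs,
      Real.norm_eq_abs, abs_of_pos ha, div_eq_mul_one_div, mul_comm]
    refine mul_le_mul hinv ?_ (by positivity) (by positivity)
    have h3 := XX_lip hε b a
    rw [norm_sub_rev b a] at h3
    calc ‖uu ε b‖ * |XX ε b - XX ε a| ≤ 1 * ‖a - b‖ :=
          mul_le_mul (norm_uu_le hε b) h3 (abs_nonneg _) zero_le_one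
      _ = ‖a - b‖ := one_mul _
  calc ‖uu ε a - uu ε b‖ ≤ ‖(a - b) / (XX ε a : ℂ)‖
        + ‖uu ε b * ((XX ε b - XX ε a : ℝ) : ℂ) / (XX ε a : ℂ)‖ := by rw [h1]; exact norm_add_le _ _
    _ ≤ 1 / ε * ‖a - b‖ + 1 / ε * ‖a - b‖ := add_le_add e1 e2
    _ = 2 / ε * ‖a - b‖ := by ring

theorem ss_eq {ε : ℝ} (F : ℂ × ℂ) : ss ε F = conj (uu ε F.1) * uu ε F.2 := by
  unfold ss uu
  rw [map_div₀, Complex.conj_ofReal]
  push_cast
  rw [div_mul_div_comm]

theorem norm_ss_le {ε : ℝ} (hε : 0 < ε) (F : ℂ × ℂ) : ‖ss ε F‖ ≤ 1 := by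
  rw [ss_eq, norm_mul, RCLike.norm_conj]
  calc ‖uu ε F.1‖ * ‖uu ε F.2‖ ≤ 1 * 1 :=
        mul_le_mul (norm_uu_le hε _) (norm_uu_le hε _) (norm_nonneg _) zero_le_one
    _ = 1 := one_mul 1

theorem ss_lip {ε : ℝ} (hε : 0 < ε) (F G : ℂ × ℂ) :
    ‖ss ε F - ss ε G‖ ≤ 2 / ε * (‖F.1 - G.1‖ + ‖F.2 - G.2‖) := by
  rw [ss_eq, ss_eq]
  have h : conj (uu ε F.1) * uu ε F.2 - conj (uu ε G.1) * uu ε G.2
      = conj (uu ε F.1 - uu ε G.1) * uu ε F.2 + conj (uu ε G.1) * (uu ε F.2 - uu ε G.2) := by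
    rw [map_sub]; ring
  rw [h]
  calc ‖conj (uu ε F.1 - uu ε G.1) * uu ε F.2 + conj (uu ε G.1) * (uu ε F.2 - uu ε G.2)‖
      ≤ ‖uu ε F.1 - uu ε G.1‖ * ‖uu ε F.2‖ + ‖uu ε G.1‖ * ‖uu ε F.2 - uu ε G.2‖ := by
        refine (norm_add_le _ _).trans ?_
        rw [norm_mul, norm_mul, RCLike.norm_conj, RCLike.norm_conj]
    _ ≤ (2 / ε * ‖F.1 - G.1‖) * 1 + 1 * (2 / ε * ‖F.2 - G.2‖) := by
        refine add_le_add ?_ ?_
        · exact mul_le_mul (uu_lip hε _ _) (norm_uu_le hε _) (norm_nonneg _) (by positivity)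
        · exact mul_le_mul (norm_uu_le hε _) (uu_lip hε _ _) (norm_nonneg _) zero_le_one
    _ = _ := by ring

theorem continuous_uu {ε : ℝ} (hε : 0 < ε) : Continuous (uu ε) := by
  unfold uu XX
  refine continuous_id.div ?_ fun a => ?_
  · fun_prop
  · exact_mod_cast (Real.sqrt_pos.2 (by positivity)).ne'

theorem continuous_ss {ε : ℝ} (hε : 0 < ε) : Continuous (ss ε) := by
  have : ss ε = fun F : ℂ × ℂ => conj (uu ε F.1) * uu ε F.2 := by
    funext F; exact ss_eq F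
  rw [this]
  have h := continuous_uu hε
  exact (Complex.continuous_conj.comp (h.comp continuous_fst)).mul (h.comp continuous_snd)


/-! ### the instance on a space with a basis of unimodular functions -/

section inst

variable {Ω : Type} [MeasurableSpace Ω] {μ : Measure Ω}

theorem coef_meas {ε : ℝ} (hε : 0 < ε) (a b : Lp ℂ 2 μ) :
    AEStronglyMeasurable (fun x => ss ε (a x, b x)) μ :=
  (continuous_ss hε).comp_aestronglyMeasurable ((Lp.memLp a).1.prodMk (Lp.memLp b).1)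

theorem coef_meas' {ε : ℝ} (hε : 0 < ε) (a b : Lp ℂ 2 μ) :
    AEStronglyMeasurable (fun x => conj (ss ε (a x, b x))) μ :=
  Complex.continuous_conj.comp_aestronglyMeasurable (coef_meas hε a b)

/-- the coefficient operator -/
noncomputable def sO {ε : ℝ} (hε : 0 < ε) (a b : Lp ℂ 2 μ) : Lp ℂ 2 μ →L[ℂ] Lp ℂ 2 μ :=
  mulL (fun x => ss ε (a x, b x)) (coef_meas hε a b) (fun _ => norm_ss_le hε _)

theorem sO_adj {ε : ℝ} (hε : 0 < ε) (a b : Lp ℂ 2 μ) :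
    (sO hε a b).adjoint = mulL (fun x => conj (ss ε (a x, b x))) (coef_meas' hε a b)
      (fun x => by rw [RCLike.norm_conj]; exact norm_ss_le hε _) :=
  adjoint_mulL _ _ _ _ _

/-- norms of pointwise bounded functions -/
theorem norm_bound (f a b : Lp ℂ 2 μ) (L : ℝ) (hL : 0 ≤ L)
    (h : ∀ᵐ x ∂μ, ‖f x‖ ≤ L * (‖a x‖ + ‖b x‖)) : ‖f‖ ≤ L * (‖a‖ + ‖b‖) := by
  have h1 : eLpNorm f 2 μ ≤ ENNReal.ofReal L * (eLpNorm a 2 μ + eLpNorm b 2 μ) := by
    have h2 : eLpNorm f 2 μ ≤ eLpNorm (fun x => L * (‖a x‖ + ‖b x‖)) 2 μ := by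
      apply eLpNorm_mono_ae
      filter_upwards [h] with x hx
      rw [Real.norm_of_nonneg (by positivity)]
      exact hx
    refine h2.trans ?_
    have h3 : (fun x => L * (‖a x‖ + ‖b x‖)) = L • ((fun x => ‖a x‖) + fun x => ‖b x‖) := by
      funext x; simp
    rw [h3, eLpNorm_const_smul, Real.enorm_of_nonneg hL]
    refine mul_le_mul_right ?_ _
    refine (eLpNorm_add_le (Lp.memLp a).1.norm (Lp.memLp b).1.norm (by norm_num)).trans ?_
    rw [eLpNorm_norm, eLpNorm_norm]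
  have ha := (Lp.memLp a).2.ne
  have hb := (Lp.memLp b).2.ne
  rw [Lp.norm_def, Lp.norm_def, Lp.norm_def, ← ENNReal.toReal_add ha hb,
    ← ENNReal.toReal_ofReal hL, ← ENNReal.toReal_mul]
  exact ENNReal.toReal_mono (ENNReal.mul_ne_top ENNReal.ofReal_ne_top
    (ENNReal.add_ne_top.2 ⟨ha, hb⟩)) h1

theorem lip_aux {ε : ℝ} (hε : 0 < ε) (E : Ω → ℂ) (hE : ∀ x, ‖E x‖ = 1) (v : Lp ℂ 2 μ)
    (hv : v =ᵐ[μ] E) (a b a' b' : Lp ℂ 2 μ) :
    ‖sO hε a b v - sO hε a' b' v‖ ≤ 2 / ε * (‖a - a'‖ + ‖b - b'‖) ∧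
    ‖(sO hε a b).adjoint v - (sO hε a' b').adjoint v‖ ≤ 2 / ε * (‖a - a'‖ + ‖b - b'‖) := by
  have hL : (0 : ℝ) ≤ 2 / ε := by positivity
  constructor
  · apply norm_bound _ _ _ _ hL
    filter_upwards [hv, Lp.coeFn_sub (sO hε a b v) (sO hε a' b' v), Lp.coeFn_sub a a',
      Lp.coeFn_sub b b', mulL_coe _ (coef_meas hε a b) (fun _ => norm_ss_le hε _) v,
      mulL_coe _ (coef_meas hε a' b') (fun _ => norm_ss_le hε _) v] with x h1 h2 h3 h4 h5 h6
    rw [h2, h3, h4]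
    simp only [Pi.sub_apply]
    unfold sO
    rw [h5, h6, ← sub_mul, norm_mul, h1, hE, mul_one]
    exact ss_lip hε _ _
  · rw [sO_adj, sO_adj]
    apply norm_bound _ _ _ _ hL
    filter_upwards [hv, Lp.coeFn_sub
        (mulL (fun x => conj (ss ε (a x, b x))) (coef_meas' hε a b)
          (fun x => by rw [RCLike.norm_conj]; exact norm_ss_le hε _) v)
        (mulL (fun x => conj (ss ε (a' x, b' x))) (coef_meas' hε a' b')
          (fun x => by rw [RCLike.norm_conj]; exact norm_ss_le hε _) v), Lp.coeFn_sub a a',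
      Lp.coeFn_sub b b', mulL_coe _ (coef_meas' hε a b)
        (fun x => by rw [RCLike.norm_conj]; exact norm_ss_le hε _) v,
      mulL_coe _ (coef_meas' hε a' b')
        (fun x => by rw [RCLike.norm_conj]; exact norm_ss_le hε _) v] with x h1 h2 h3 h4 h5 h6
    rw [h2, h3, h4]
    simp only [Pi.sub_apply]
    rw [h5, h6, ← sub_mul, norm_mul, h1, hE, mul_one, ← map_sub, RCLike.norm_conj]
    exact ss_lip hε _ _

/-- the data -/
noncomputable def dat {ε n : ℝ} (hε : 0 < ε) (hn : 2 < n) (E : Idx → Ω → ℂ)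
    (hE : ∀ k x, ‖E k x‖ = 1) (b : HilbertBasis Idx ℂ (Lp ℂ 2 μ))
    (hb : ∀ k, b k =ᵐ[μ] E k) : Dat (Lp ℂ 2 μ) where
  e := b
  s := sO hε
  n := n
  L := 2 / ε
  hn := hn
  h1 := fun _ _ => norm_mulL_le _ _ _
  h2 := fun a c a' c' k => (lip_aux hε (E k) (hE k) (b k) (hb k) a c a' c').1
  h3 := fun a c a' c' k => (lip_aux hε (E k) (hE k) (b k) (hb k) a c a' c').2

/-- trigonometric polynomial on `Ω` -/
noncomputable def tpΩ (E : Idx → Ω → ℂ) (Λ : Finset Idx) (w c : Idx → ℂ) (x : Ω) : ℂ :=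
  ∑ k ∈ Λ, w k * c k * E k x

theorem sum_coe (E : Idx → Ω → ℂ) (b : HilbertBasis Idx ℂ (Lp ℂ 2 μ))
    (hb : ∀ k, b k =ᵐ[μ] E k) (Λ : Finset Idx) (u : Idx → ℂ) :
    (∑ k ∈ Λ, u k • b k : Lp ℂ 2 μ) =ᵐ[μ] fun x => ∑ k ∈ Λ, u k * E k x := by
  classical
  induction Λ using Finset.induction_on with
  | empty =>
    simp only [Finset.sum_empty]
    exact Lp.coeFn_zero ℂ 2 μ
  | insert k Λ hk ih =>
    rw [Finset.sum_insert hk]
    filter_upwards [Lp.coeFn_add (u k • b k) (∑ k ∈ Λ, u k • b k), ih,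
      Lp.coeFn_smul (u k) (b k), hb k] with x h1 h2 h3 h4
    rw [h1, Pi.add_apply, h2, h3, Pi.smul_apply, h4, smul_eq_mul, Finset.sum_insert hk]

/-- velocity on `Ω` -/
noncomputable def VΩ (ε n : ℝ) (E : Idx → Ω → ℂ) (Λ : Finset Idx) (c : Idx → ℂ) (x : Ω) : ℂ :=
  Vv ε n (tpΩ E Λ ka c x, tpΩ E Λ kb c x) (tpΩ E Λ (fun k => ka k ^ 2) c x)
    (tpΩ E Λ (fun k => ka k * kb k) c x) (tpΩ E Λ (fun k => kb k ^ 2) c x)

theorem VN_coe {ε n : ℝ} (hε : 0 < ε) (hn : 2 < n) (E : Idx → Ω → ℂ)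
    (hE : ∀ k x, ‖E k x‖ = 1) (b : HilbertBasis Idx ℂ (Lp ℂ 2 μ))
    (hb : ∀ k, b k =ᵐ[μ] E k) (Λ : Finset Idx) (c : Idx → ℂ) :
    ((VN (dat hε hn E hE b hb) Λ c : Lp ℂ 2 μ) : Ω → ℂ) =ᵐ[μ] VΩ ε n E Λ c := by
  have hs : ∀ w : Idx → ℂ, (sm (dat hε hn E hE b hb) Λ w c : Lp ℂ 2 μ) =ᵐ[μ]
      fun x => tpΩ E Λ w c x := fun w => sum_coe E b hb Λ fun k => w k * c k
  have h1 := hs ka
  have h2 := hs kb
  have h3 := hs fun k => ka k ^ 2
  have h4 := hs fun k => ka k * kb k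
  have h5 := hs fun k => kb k ^ 2
  unfold VN Vf
  set A := sm (dat hε hn E hE b hb) Λ ka c
  set B := sm (dat hε hn E hE b hb) Λ kb c
  set P := sm (dat hε hn E hE b hb) Λ (fun k => ka k ^ 2) c
  set Q := sm (dat hε hn E hE b hb) Λ (fun k => ka k * kb k) c
  set R := sm (dat hε hn E hE b hb) Λ (fun k => kb k ^ 2) c
  change (((n : ℂ) • Q + sO hε A B P + (sO hε A B).adjoint R : Lp ℂ 2 μ) : Ω → ℂ) =ᵐ[μ] _
  rw [sO_adj]
  filter_upwards [h1, h2, h3, h4, h5, Lp.coeFn_add ((n : ℂ) • Q + sO hε A B P)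
      (mulL (fun x => conj (ss ε (A x, B x))) (coef_meas' hε A B)
      (fun x => by rw [RCLike.norm_conj]; exact norm_ss_le hε _) R),
    Lp.coeFn_add ((n : ℂ) • Q) (sO hε A B P), Lp.coeFn_smul (n : ℂ) Q,
    mulL_coe _ (coef_meas hε A B) (fun _ => norm_ss_le hε _) P,
    mulL_coe _ (coef_meas' hε A B)
      (fun x => by rw [RCLike.norm_conj]; exact norm_ss_le hε _) R]
    with x h1 h2 h3 h4 h5 h6 h7 h8 h9 h10
  rw [h6, Pi.add_apply, h7, Pi.add_apply, h8, Pi.smul_apply, h10]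
  unfold sO
  rw [h9, h1, h2, h3, h4, h5, smul_eq_mul]
  rfl

theorem inner_VN {ε n : ℝ} (hε : 0 < ε) (hn : 2 < n) (E : Idx → Ω → ℂ)
    (hE : ∀ k x, ‖E k x‖ = 1) (b : HilbertBasis Idx ℂ (Lp ℂ 2 μ))
    (hb : ∀ k, b k =ᵐ[μ] E k) (Λ : Finset Idx) (c : Idx → ℂ) (k : Idx) :
    (inner ℂ ((dat hε hn E hE b hb).e k) (VN (dat hε hn E hE b hb) Λ c) : ℂ)
      = ∫ x, conj (E k x) * VΩ ε n E Λ c x ∂μ := by
  rw [L2.inner_def]
  apply integral_congr_ae
  have h2 : ((dat hε hn E hE b hb).e k : Lp ℂ 2 μ) =ᵐ[μ] E k := hb k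
  filter_upwards [VN_coe hε hn E hE b hb Λ c, h2] with x h1 h2
  rw [h1, h2, RCLike.inner_apply, mul_comm]

theorem norm_sq_eq (f : Lp ℂ 2 μ) (g : Ω → ℂ) (h : f =ᵐ[μ] g) : ‖f‖ ^ 2 = ∫ x, ‖g x‖ ^ 2 ∂μ := by
  have h1 : ((‖f‖ ^ 2 : ℝ) : ℂ) = inner ℂ f f := by
    rw [inner_self_eq_norm_sq_to_K (𝕜 := ℂ) f]; norm_cast
  have h2 : ((‖f‖ ^ 2 : ℝ) : ℂ) = ((∫ x, ‖g x‖ ^ 2 ∂μ : ℝ) : ℂ) := by
    rw [h1, L2.inner_def, ← integral_complex_ofReal]
    apply integral_congr_ae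
    filter_upwards [h] with x hx
    rw [hx, inner_self_eq_norm_sq_to_K]
    norm_cast
  exact_mod_cast h2

theorem norm_sub_pr {ε n : ℝ} (hε : 0 < ε) (hn : 2 < n) (E : Idx → Ω → ℂ)
    (hE : ∀ k x, ‖E k x‖ = 1) (b : HilbertBasis Idx ℂ (Lp ℂ 2 μ))
    (hb : ∀ k, b k =ᵐ[μ] E k) (Λ Λ' : Finset Idx) (c : Idx → ℂ) :
    ‖VN (dat hε hn E hE b hb) Λ c
        - pr (dat hε hn E hE b hb) Λ' (VN (dat hε hn E hE b hb) Λ c)‖ ^ 2
      = ∫ x, ‖VΩ ε n E Λ c x
        - ∑ k ∈ Λ', (∫ y, conj (E k y) * VΩ ε n E Λ c y ∂μ) * E k x‖ ^ 2 ∂μ := by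
  apply norm_sq_eq
  unfold pr
  have h1 := sum_coe E b hb Λ' fun k =>
    (inner ℂ ((dat hε hn E hE b hb).e k) (VN (dat hε hn E hE b hb) Λ c) : ℂ)
  have h1' : ((∑ k ∈ Λ', (inner ℂ ((dat hε hn E hE b hb).e k)
      (VN (dat hε hn E hE b hb) Λ c) : ℂ) • (dat hε hn E hE b hb).e k : Lp ℂ 2 μ) : Ω → ℂ)
      =ᵐ[μ] fun x => ∑ k ∈ Λ', (∫ y, conj (E k y) * VΩ ε n E Λ c y ∂μ) * E k x := by
    refine h1.trans (Eventually.of_forall fun x => ?_)
    refine Finset.sum_congr rfl fun k _ => ?_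
    rw [inner_VN]
  filter_upwards [VN_coe hε hn E hE b hb Λ c, h1', Lp.coeFn_sub
    (VN (dat hε hn E hE b hb) Λ c) (∑ k ∈ Λ', (inner ℂ ((dat hε hn E hE b hb).e k)
      (VN (dat hε hn E hE b hb) Λ c) : ℂ) • (dat hε hn E hE b hb).e k)] with x h1 h2 h3
  rw [h3, Pi.sub_apply, h1, h2]

end inst

/-! ### the torus -/

section torus

open UnitAddTorus

/-- In this file we normalise the measure on `ℝ / ℤ` to have total volume 1. -/
noncomputable local instance : MeasureSpace UnitAddCircle := ⟨AddCircle.haarAddCircle⟩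

local instance : Measure.IsAddHaarMeasure (volume : Measure UnitAddCircle) :=
  inferInstanceAs (Measure.IsAddHaarMeasure AddCircle.haarAddCircle)

local instance : IsProbabilityMeasure (volume : Measure UnitAddCircle) :=
  inferInstanceAs (IsProbabilityMeasure AddCircle.haarAddCircle)

/-- the torus -/
abbrev TT := UnitAddTorus (Fin 2)

/-- the frequency vector -/
def fv (k : Idx) : Fin 2 → ℤ := ![k.1, k.2]

theorem fv_inj : Function.Injective fv := by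
  intro k l h
  have h0 := congrFun h 0
  have h1 := congrFun h 1
  simp [fv] at h0 h1
  exact Prod.ext h0 h1

theorem fv_surj : Function.Surjective fv := fun m => ⟨(m 0, m 1), by
  funext i; fin_cases i <;> simp [fv]⟩

/-- the exponentials on the torus -/
noncomputable def ET (k : Idx) (x : TT) : ℂ := mFourier (fv k) x

theorem norm_ET (k : Idx) (x : TT) : ‖ET k x‖ = 1 := by
  unfold ET mFourier
  simp only [ContinuousMap.coe_mk, norm_prod, fourier_apply, Circle.norm_coe,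
    Finset.prod_const_one]

theorem ET_coe (k : Idx) (x : V) : ET k (fun i => (x i : UnitAddCircle)) = ek k x := by
  unfold ET mFourier ek fv
  simp only [ContinuousMap.coe_mk, Fin.prod_univ_two, fourier_coe_apply, Matrix.cons_val_zero,
    Matrix.cons_val_one, Complex.ofReal_one, div_one]
  rw [← Complex.exp_add]
  congr 1
  ring

theorem on_T : Orthonormal ℂ (fun k : Idx => (mFourierLp 2 (fv k) : Lp ℂ 2 (volume : Measure TT))) :=
  (orthonormal_mFourier (d := Fin 2)).comp fv fv_inj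

/-- the basis -/
noncomputable def bT : HilbertBasis Idx ℂ (Lp ℂ 2 (volume : Measure TT)) :=
  HilbertBasis.mk on_T (by
    have h := (span_mFourierLp_closure_eq_top (d := Fin 2) (p := 2) (by simp)).ge
    have h2 : Set.range (fun k : Idx => (mFourierLp 2 (fv k) : Lp ℂ 2 (volume : Measure TT)))
        = Set.range (mFourierLp (d := Fin 2) 2) := by
      ext y
      constructor
      · rintro ⟨k, rfl⟩; exact ⟨fv k, rfl⟩
      · rintro ⟨m, rfl⟩
        obtain ⟨k, rfl⟩ := fv_surj m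
        exact ⟨k, rfl⟩
    rw [h2]
    exact h)

theorem bT_coe (k : Idx) : ((bT k : Lp ℂ 2 (volume : Measure TT)) : TT → ℂ) =ᵐ[volume] ET k := by
  have h : bT k = mFourierLp 2 (fv k) := congrFun (HilbertBasis.coe_mk on_T _) k
  rw [h]
  exact coeFn_mFourierLp 2 (fv k)

theorem int_T {F : Type} [NormedAddCommGroup F] [NormedSpace ℝ F] (f : TT → F) (g : V → F)
    (h : ∀ x : V, f (fun i => (x i : UnitAddCircle)) = g x) :
    ∫ x : TT, f x = ∫ x in Icc (0 : V) 1, g x := by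
  rw [integral_preimage f 0]
  have h1 : {x : V | ∀ i, x i ∈ Ioc ((0 : V) i) ((0 : V) i + 1)}
      = Set.pi univ fun i => Ioc ((0 : V) i) ((1 : V) i) := by
    ext x; simp
  have h2 : (Set.pi univ fun i => Ioc ((0 : V) i) ((1 : V) i)) =ᵐ[(volume : Measure V)]
      Icc (0 : V) 1 := Measure.univ_pi_Ioc_ae_eq_Icc
  rw [h1, setIntegral_congr_set h2]
  simp only [h]

theorem tp_coe (Λ : Finset Idx) (w c : Idx → ℂ) (x : V) :
    tpΩ ET Λ w c (fun i => (x i : UnitAddCircle)) = tp Λ w c x := by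
  unfold tpΩ tp
  refine Finset.sum_congr rfl fun k _ => ?_
  rw [ET_coe]

theorem V_coe (ε n : ℝ) (Λ : Finset Idx) (c : Idx → ℂ) (x : V) :
    VΩ ε n ET Λ c (fun i => (x i : UnitAddCircle)) = Vp ε n Λ c x := by
  unfold VΩ Vp gd pp qq rr
  simp only [tp_coe]

/-- **IW-CONC** -/
theorem main : S_CONC := by
  intro ε n hε hn
  have hI : ∀ (Λ : Finset Idx) (c : Idx → ℂ) (k : Idx),
      ∫ x, conj (ET k x) * VΩ ε n ET Λ c x
        = ∫ x in Icc (0 : V) 1, (starRingEnd ℂ) (ek k x) * Vp ε n Λ c x := fun Λ c k =>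
    int_T _ _ fun x => by rw [ET_coe, V_coe]
  refine ⟨Lp ℂ 2 _, inferInstance, inferInstance, inferInstance,
    dat hε hn ET norm_ET bT bT_coe, rfl, ?_, ?_⟩
  · intro Λ c k
    rw [inner_VN]
    exact hI Λ c k
  · intro Λ Λ' c
    rw [norm_sub_pr]
    refine int_T _ _ fun x => ?_
    rw [V_coe]
    congr 2
    congr 1
    refine Finset.sum_congr rfl fun k _ => ?_
    rw [hI, ET_coe]

end torus

end Pool.Agent.W360.IW.Conc
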